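import Mathlib

/-!
# Algebraicity of the elements of an algebra with scalar corners

`R` is an algebra over a field `K`, `e i` are orthogonal idempotents of `R` and every
corner `e i * R * e i` is `K • e i`.  Every element of `e_I * R * e_I` is algebraic.
-/

namespace Pool.Agent.CmSd

open Polynomial

variable {K R : Type*} [Field K] [Ring R] [Algebra K R]

/-- A linear endomorphism which preserves a finitely generated subspace kills every vector
of it after a suitable nonzero polynomial. -/
theorem exists_poly_apply (T : R →ₗ[K] R) (N : Submodule K R) (hN : N.FG)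
    (hT : ∀ n ∈ N, T n ∈ N) (v : R) (hv : v ∈ N) :
    ∃ q : K[X], q ≠ 0 ∧ (aeval T q) v = 0 := by
  have : Module.Finite K N := Module.Finite.iff_fg.mpr hN
  have key : ∀ (q : K[X]) (n : N),
      (((aeval (T.restrict hT)) q n : N) : R) = (aeval T q) (n : R) := by
    intro q
    induction q using Polynomial.induction_on' with
    | add p q hp hq =>
      intro n
      simp [hp, hq]
    | monomial k a =>
      intro n
      have hpow : ∀ (k : ℕ) (n : N), ((((T.restrict hT) ^ k) n : N) : R) = (T ^ k) (n : R) := by
        intro k
        induction k with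
        | zero => intro n; simp
        | succ k ih =>
          intro n
          rw [pow_succ, pow_succ, Module.End.mul_apply, Module.End.mul_apply, ih]
          simp
      simp [aeval_monomial, hpow, Algebra.algebraMap_eq_smul_one]
  refine ⟨(T.restrict hT).charpoly, (LinearMap.charpoly_monic _).ne_zero, ?_⟩
  have h := key (T.restrict hT).charpoly ⟨v, hv⟩
  rw [LinearMap.aeval_self_charpoly] at h
  simpa using h.symm

theorem aeval_mulLeft (w : R) (q : K[X]) (v : R) :
    (aeval (LinearMap.mulLeft K w) q) v = aeval w q * v := by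
  induction q using Polynomial.induction_on' with
  | add p q hp hq => simp [hp, hq, add_mul]
  | monomial k a =>
    simp [aeval_monomial, Algebra.algebraMap_eq_smul_one]

theorem aeval_mulRight (w : R) (q : K[X]) (v : R) :
    (aeval (LinearMap.mulRight K w) q) v = v * aeval w q := by
  induction q using Polynomial.induction_on' with
  | add p q hp hq => simp [hp, hq, mul_add]
  | monomial k a =>
    simp [aeval_monomial, Algebra.algebraMap_eq_smul_one]

/-- The elements of `K[d]`, for `d = f d = d f`, commute with `f`. -/
theorem adjoin_comm {f d g : R} (h1 : f * d = d) (h2 : d * f = d)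
    (hg : g ∈ Algebra.adjoin K {d}) : f * g = g * f := by
  induction hg using Algebra.adjoin_induction with
  | mem x hx =>
    rw [Set.mem_singleton_iff] at hx
    rw [hx, h1, h2]
  | algebraMap r => exact (Algebra.commutes r f).symm
  | add x y _ _ hx hy => rw [mul_add, add_mul, hx, hy]
  | mul x y _ _ hx hy => rw [← mul_assoc, hx, mul_assoc, hy, mul_assoc]

/-- One elimination step. -/
theorem step_left {e f w : R} (hf : f * f = f)
    (hw : (e + f) * w = w)
    (hc : ∀ x : R, ∃ k : K, e * x * e = k • e) (hd : IsAlgebraic K (f * w * f)) :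
    ∃ q : K[X], q ≠ 0 ∧ aeval w q * e = 0 := by
  set d : R := f * w * f with hdd
  have hfd : f * d = d := by rw [hdd]; simp only [← mul_assoc, hf]
  have hdf : d * f = d := by rw [hdd, mul_assoc, hf]
  set y : R := f * w * e with hy
  have hfy : f * y = y := by rw [hy]; simp only [← mul_assoc, hf]
  set A : Submodule K R := (Algebra.adjoin K {d}).toSubmodule with hA
  have hAfg : A.FG := (isAlgebraic_iff_isIntegral.mp hd).fg_adjoin_singleton
  set N : Submodule K R := Submodule.span K {e} ⊔ A.map (LinearMap.mulRight K y) with hN
  have hNfg : N.FG := (Submodule.fg_span_singleton e).sup (hAfg.map _)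
  have heN : e ∈ N := Submodule.mem_sup_left (Submodule.mem_span_singleton_self e)
  have hAy : ∀ g ∈ Algebra.adjoin K {d}, g * y ∈ N := by
    intro g hg
    refine Submodule.mem_sup_right ⟨g, hg, ?_⟩
    simp
  have hyN : y ∈ N := by
    have := hAy 1 (Subalgebra.one_mem _)
    simpa using this
  have hwe : w * e ∈ N := by
    obtain ⟨k, hk⟩ := hc w
    have h : w * e = k • e + y := by
      calc w * e = (e + f) * w * e := by rw [hw]
        _ = e * w * e + f * w * e := by rw [add_mul, add_mul]
        _ = k • e + y := by rw [hk]
    rw [h]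
    exact N.add_mem (N.smul_mem _ heN) hyN
  have hwN : ∀ n ∈ N, LinearMap.mulLeft K w n ∈ N := by
    intro n hn
    rw [LinearMap.mulLeft_apply]
    obtain ⟨a, ha, b, hb, rfl⟩ := Submodule.mem_sup.mp hn
    obtain ⟨k, rfl⟩ := Submodule.mem_span_singleton.mp ha
    obtain ⟨g, hg, rfl⟩ := hb
    rw [LinearMap.mulRight_apply, mul_add, mul_smul_comm]
    refine N.add_mem (N.smul_mem _ hwe) ?_
    have hgy : g * y = f * (g * y) := by
      calc g * y = g * (f * y) := by rw [hfy]
        _ = (f * g) * y := by rw [adjoin_comm hfd hdf hg, mul_assoc]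
        _ = f * (g * y) := by rw [mul_assoc]
    obtain ⟨k, hk⟩ := hc (w * g * f * w)
    have h1 : w * (g * y) = k • e + (d * g) * y := by
      have h2 : e * w * (g * y) = k • e := by
        rw [← hk, hy]
        simp only [mul_assoc]
      have h4 : f * w * (g * y) = d * g * y := by
        rw [hgy]
        rw [show f * w * (f * (g * y)) = (f * w * f) * g * y by simp only [mul_assoc]]
      calc w * (g * y) = (e + f) * w * (g * y) := by rw [hw]
        _ = e * w * (g * y) + f * w * (g * y) := by rw [add_mul, add_mul]
        _ = _ := by rw [h2, h4]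
    rw [h1]
    refine N.add_mem (N.smul_mem _ heN) (hAy _ ?_)
    exact (Algebra.adjoin K {d}).mul_mem (Algebra.subset_adjoin rfl) hg
  obtain ⟨q, hq, h⟩ := exists_poly_apply (LinearMap.mulLeft K w) N hNfg hwN e heN
  refine ⟨q, hq, ?_⟩
  rwa [aeval_mulLeft] at h

/-- The mirror image of `step_left`. -/
theorem step_right {e f w : R} (hf : f * f = f)
    (hw' : w * (e + f) = w)
    (hc : ∀ x : R, ∃ k : K, e * x * e = k • e) (hd : IsAlgebraic K (f * w * f)) :
    ∃ q : K[X], q ≠ 0 ∧ e * aeval w q = 0 := by
  set d : R := f * w * f with hdd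
  have hfd : f * d = d := by rw [hdd]; simp only [← mul_assoc, hf]
  have hdf : d * f = d := by rw [hdd, mul_assoc, hf]
  set y : R := e * w * f with hy
  have hfy : y * f = y := by rw [hy, mul_assoc, hf]
  set A : Submodule K R := (Algebra.adjoin K {d}).toSubmodule with hA
  have hAfg : A.FG := (isAlgebraic_iff_isIntegral.mp hd).fg_adjoin_singleton
  set N : Submodule K R := Submodule.span K {e} ⊔ A.map (LinearMap.mulLeft K y) with hN
  have hNfg : N.FG := (Submodule.fg_span_singleton e).sup (hAfg.map _)
  have heN : e ∈ N := Submodule.mem_sup_left (Submodule.mem_span_singleton_self e)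
  have hAy : ∀ g ∈ Algebra.adjoin K {d}, y * g ∈ N := by
    intro g hg
    refine Submodule.mem_sup_right ⟨g, hg, ?_⟩
    simp
  have hyN : y ∈ N := by
    have := hAy 1 (Subalgebra.one_mem _)
    simpa using this
  have hwe : e * w ∈ N := by
    obtain ⟨k, hk⟩ := hc w
    have h : e * w = k • e + y := by
      calc e * w = e * (w * (e + f)) := by rw [hw']
        _ = e * w * e + e * w * f := by rw [mul_add, mul_add, mul_assoc, mul_assoc]
        _ = k • e + y := by rw [hk]
    rw [h]
    exact N.add_mem (N.smul_mem _ heN) hyN
  have hwN : ∀ n ∈ N, LinearMap.mulRight K w n ∈ N := by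
    intro n hn
    rw [LinearMap.mulRight_apply]
    obtain ⟨a, ha, b, hb, rfl⟩ := Submodule.mem_sup.mp hn
    obtain ⟨k, rfl⟩ := Submodule.mem_span_singleton.mp ha
    obtain ⟨g, hg, rfl⟩ := hb
    rw [LinearMap.mulLeft_apply, add_mul, smul_mul_assoc]
    refine N.add_mem (N.smul_mem _ hwe) ?_
    have hgy : y * g = y * g * f := by
      calc y * g = (y * f) * g := by rw [hfy]
        _ = y * (f * g) := mul_assoc y f g
        _ = y * (g * f) := by rw [adjoin_comm hfd hdf hg]
        _ = y * g * f := (mul_assoc y g f).symm
    obtain ⟨k, hk⟩ := hc (w * f * g * w)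
    have h1 : (y * g) * w = k • e + y * (g * d) := by
      have h2 : (y * g) * (w * e) = k • e := by
        rw [← hk, hy]
        simp only [mul_assoc]
      have h4 : (y * g) * (w * f) = y * (g * d) := by
        rw [hgy]
        simp only [hdd, mul_assoc]
      calc (y * g) * w = (y * g) * (w * (e + f)) := by rw [hw']
        _ = (y * g) * (w * e) + (y * g) * (w * f) := by rw [mul_add, mul_add]
        _ = _ := by rw [h2, h4]
    rw [h1]
    refine N.add_mem (N.smul_mem _ heN) (hAy _ ?_)
    exact (Algebra.adjoin K {d}).mul_mem hg (Algebra.subset_adjoin rfl)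
  obtain ⟨q, hq, h⟩ := exists_poly_apply (LinearMap.mulRight K w) N hNfg hwN e heN
  refine ⟨q, hq, ?_⟩
  rwa [aeval_mulRight] at h

/-- If a polynomial of positive degree in `w` is algebraic then `w` is algebraic. -/
theorem algebraic_of_aeval {w : R} {g : K[X]} (hg : 1 ≤ g.natDegree)
    (h : IsAlgebraic K (aeval w g)) : IsAlgebraic K w := by
  obtain ⟨q, hq, h0⟩ := h
  refine ⟨q.comp g, ?_, ?_⟩
  · intro h
    rcases Polynomial.comp_eq_zero_iff.mp h with h | h
    · exact hq h
    · rw [h.2] at hg
      simp at hg
  · rw [Polynomial.aeval_comp, h0]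

variable {ι : Type*} [DecidableEq ι]

/-- Every element of `e_I * R * e_I` is algebraic over `K`. -/
theorem algebraic_corner {e : ι → R} (he : OrthogonalIdempotents e)
    (hc : ∀ i (x : R), ∃ k : K, e i * x * e i = k • e i) (I : Finset ι) :
    ∀ w : R, (∑ i ∈ I, e i) * w = w → w * (∑ i ∈ I, e i) = w → IsAlgebraic K w := by
  induction I using Finset.induction_on with
  | empty =>
    intro w hw _
    simp only [Finset.sum_empty, zero_mul] at hw
    rw [← hw]
    exact isAlgebraic_zero
  | insert i I hi ih =>
    intro w hw hw'
    rw [Finset.sum_insert hi] at hw hw'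
    set f : R := ∑ j ∈ I, e j with hfdef
    have hf : f * f = f := (he.isIdempotentElem_sum).eq
    have hei : e i * e i = e i := (he.idem i).eq
    have hef : e i * f = 0 := by
      rw [hfdef, Finset.mul_sum]
      refine Finset.sum_eq_zero ?_
      intro j hj
      exact he.ortho (by rintro rfl; exact hi hj)
    have hfe : f * e i = 0 := by
      rw [hfdef, Finset.sum_mul]
      refine Finset.sum_eq_zero ?_
      intro j hj
      exact he.ortho (by rintro rfl; exact hi hj)
    have hd : IsAlgebraic K (f * w * f) := by
      refine ih _ ?_ ?_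
      · simp only [← mul_assoc, hf]
      · rw [mul_assoc, hf]
    obtain ⟨q1, hq1, h1⟩ := step_left hf hw (hc i) hd
    obtain ⟨q2, hq2, h2⟩ := step_right hf hw' (hc i) hd
    set g : K[X] := X * (q1 * q2) with hg
    have hgd : 1 ≤ g.natDegree := by
      rw [hg, natDegree_X_mul (mul_ne_zero hq1 hq2)]
      omega
    refine algebraic_of_aeval (g := g) hgd ?_
    set u : R := aeval w g with hu
    have hu1 : u = w * (aeval w q1 * aeval w q2) := by
      rw [hu, hg, map_mul, map_mul, aeval_X]
    have hcomm : ∀ p q : K[X], aeval w p * aeval w q = aeval w q * aeval w p := by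
      intro p q
      rw [← map_mul, mul_comm, map_mul]
    have hwq : ∀ p : K[X], w * aeval w p = aeval w p * w := by
      intro p
      have := hcomm X p
      rwa [aeval_X] at this
    have hue : u * e i = 0 := by
      rw [hu1, hcomm q1 q2, mul_assoc, mul_assoc, h1, mul_zero, mul_zero]
    have heu : e i * u = 0 := by
      rw [hu1, hcomm q1 q2, ← mul_assoc w, hwq q2, mul_assoc, ← mul_assoc, h2, zero_mul]
    have hfu : f * u = u := by
      have : (e i + f) * u = u := by rw [hu1, ← mul_assoc, hw]
      rw [add_mul, heu, zero_add] at this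
      exact this
    have huf : u * f = u := by
      have : u * (e i + f) = u := by
        rw [hu1, mul_assoc, ← map_mul, ← mul_assoc, hwq, mul_assoc, hw']
      rw [mul_add, hue, zero_add] at this
      exact this
    exact ih u hfu huf

end Pool.Agent.CmSd
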