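import Mathlib

/-!
# Equivalence of idempotents in a ring with scalar corners
-/

namespace Pool.Agent.CmSd

variable {R : Type*} [Ring R]

/-- `x` and `y` realise an equivalence between the idempotents `P` and `Q`. -/
structure Link (P Q x y : R) : Prop where
  xy : x * y = P
  yx : y * x = Q
  px : P * x = x
  xq : x * Q = x
  qy : Q * y = y
  yp : y * P = y

/-- The idempotents `P` and `Q` are equivalent. -/
def Eqv (P Q : R) : Prop := ∃ x y, Link P Q x y

theorem Eqv.symm {P Q : R} (h : Eqv P Q) : Eqv Q P := by
  obtain ⟨x, y, h⟩ := h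
  exact ⟨y, x, h.yx, h.xy, h.qy, h.yp, h.px, h.xq⟩

theorem Eqv.refl {P : R} (h : P * P = P) : Eqv P P := ⟨P, P, h, h, h, h, h, h⟩

theorem Eqv.trans {P Q S : R} (h : Eqv P Q) (h' : Eqv Q S) : Eqv P S := by
  obtain ⟨x, y, h⟩ := h
  obtain ⟨x', y', h'⟩ := h'
  refine ⟨x * x', y' * y, ?_, ?_, ?_, ?_, ?_, ?_⟩
  · calc x * x' * (y' * y) = x * (x' * y') * y := by simp only [mul_assoc]
      _ = P := by rw [h'.xy, h.xq, h.xy]
  · calc y' * y * (x * x') = y' * (y * x) * x' := by simp only [mul_assoc]
      _ = S := by rw [h.yx, h'.yp, h'.yx]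
  · rw [← mul_assoc, h.px]
  · rw [mul_assoc, h'.xq]
  · rw [← mul_assoc, h'.qy]
  · rw [mul_assoc, h.yp]

/-- Any two elements with `x y = P`, `y x = Q` give an equivalence of the idempotents. -/
theorem Eqv.of_mul {P Q x y : R} (hP : P * P = P) (hQ : Q * Q = Q) (hxy : x * y = P)
    (hyx : y * x = Q) : Eqv P Q := by
  have h1 : x * Q = P * x := by rw [← hyx, ← hxy, mul_assoc]
  have h2 : y * P = Q * y := by rw [← hyx, ← hxy, mul_assoc]
  refine ⟨P * x, Q * y, ?_, ?_, ?_, ?_, ?_, ?_⟩
  · rw [← h2, mul_assoc, ← mul_assoc x, hxy, hP, hP]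
  · rw [← h1, mul_assoc, ← mul_assoc y, hyx, hQ, hQ]
  · rw [← mul_assoc, hP]
  · rw [← h1, mul_assoc, hQ]
  · rw [← mul_assoc, hQ]
  · rw [← h2, mul_assoc, hP]

theorem Link.idem_left {P Q x y : R} (h : Link P Q x y) : P * P = P := by
  calc P * P = P * (x * y) := by rw [h.xy]
    _ = (P * x) * y := (mul_assoc _ _ _).symm
    _ = P := by rw [h.px, h.xy]

theorem Link.idem_right {P Q x y : R} (h : Link P Q x y) : Q * Q = Q := by
  calc Q * Q = Q * (y * x) := by rw [h.yx]
    _ = (Q * y) * x := (mul_assoc _ _ _).symm
    _ = Q := by rw [h.qy, h.yx]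

/-- Orthogonal sums of equivalent idempotents are equivalent. -/
theorem Eqv.add {P P' Q Q' : R} (h : Eqv P Q) (h' : Eqv P' Q') (h1 : P * P' = 0)
    (h2 : P' * P = 0) (h3 : Q * Q' = 0) (h4 : Q' * Q = 0) : Eqv (P + P') (Q + Q') := by
  obtain ⟨x, y, h⟩ := h
  obtain ⟨x', y', h'⟩ := h'
  have e1 : x * y' = 0 := by
    rw [← h.xq, ← h'.qy, mul_assoc, ← mul_assoc Q, h3, zero_mul, mul_zero]
  have e2 : x' * y = 0 := by
    rw [← h'.xq, ← h.qy, mul_assoc, ← mul_assoc Q', h4, zero_mul, mul_zero]
  have e3 : y * x' = 0 := by
    rw [← h.yp, ← h'.px, mul_assoc, ← mul_assoc P, h1, zero_mul, mul_zero]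
  have e4 : y' * x = 0 := by
    rw [← h'.yp, ← h.px, mul_assoc, ← mul_assoc P', h2, zero_mul, mul_zero]
  have hP := h.idem_left
  have hP' := h'.idem_left
  have hQ := h.idem_right
  have hQ' := h'.idem_right
  refine Eqv.of_mul (x := x + x') (y := y + y') ?_ ?_ ?_ ?_
  · rw [add_mul, mul_add, mul_add, h1, h2, hP, hP', add_zero, zero_add]
  · rw [add_mul, mul_add, mul_add, h3, h4, hQ, hQ', add_zero, zero_add]
  · rw [add_mul, mul_add, mul_add, e1, e2, h.xy, h'.xy, add_zero, zero_add]
  · rw [add_mul, mul_add, mul_add, e3, e4, h.yx, h'.yx, add_zero, zero_add]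

variable {K : Type*} [Field K] [Algebra K R]
variable {ι : Type*}

theorem mul_sum_eq {e : ι → R} (he : OrthogonalIdempotents e) {i : ι} {I : Finset ι}
    (hi : i ∉ I) : e i * (∑ j ∈ I, e j) = 0 := by
  rw [Finset.mul_sum]
  refine Finset.sum_eq_zero ?_
  intro j hj
  exact he.ortho (by rintro rfl; exact hi hj)

theorem sum_mul_eq {e : ι → R} (he : OrthogonalIdempotents e) {i : ι} {I : Finset ι}
    (hi : i ∉ I) : (∑ j ∈ I, e j) * e i = 0 := by
  rw [Finset.sum_mul]
  refine Finset.sum_eq_zero ?_
  intro j hj
  exact he.ortho (by rintro rfl; exact hi hj)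

/-- An element `z` of the corner of `e` which is a nonzero scalar plus a nilpotent is
invertible in the corner. -/
theorem corner_inv {e z : R} (he : e * e = e) (h1 : e * z = z) (h2 : z * e = z) {k : K}
    (hk : k ≠ 0) (hn : IsNilpotent (z - k • e)) :
    ∃ s : R, e * s = s ∧ s * e = s ∧ s * z = e ∧ z * s = e := by
  set n : R := z - k • e with hndef
  have hen : e * n = n := by rw [hndef, mul_sub, h1, mul_smul_comm, he]
  have hne : n * e = n := by rw [hndef, sub_mul, h2, smul_mul_assoc, he]
  set a : R := k • e + (1 - e) with ha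
  have hau : IsUnit a := by
    refine isUnit_iff_exists.mpr ⟨k⁻¹ • e + (1 - e), ?_, ?_⟩
    · rw [ha]
      simp only [add_mul, mul_add, mul_sub, sub_mul, smul_mul_assoc, mul_smul_comm, he, mul_one,
        one_mul, sub_self, add_zero, smul_smul,
        mul_inv_cancel₀ hk, inv_mul_cancel₀ hk, one_smul]
      abel
    · rw [ha]
      simp only [add_mul, mul_add, mul_sub, sub_mul, smul_mul_assoc, mul_smul_comm, he, mul_one,
        one_mul, sub_self, add_zero, smul_smul,
        mul_inv_cancel₀ hk, inv_mul_cancel₀ hk, one_smul]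
      abel
  have hcomm : Commute n a := by
    change n * a = a * n
    rw [ha]
    simp only [add_mul, mul_add, mul_sub, sub_mul, smul_mul_assoc, mul_smul_comm, hen, hne,
      mul_one, one_mul]
  have hu : IsUnit (a + n) := hn.isUnit_add_left_of_commute hau hcomm
  have haz : a + n = z + (1 - e) := by rw [ha, hndef]; abel
  rw [haz] at hu
  obtain ⟨t, ht1, ht2⟩ := isUnit_iff_exists.mp hu
  have hue : (z + (1 - e)) * e = z := by
    rw [add_mul, sub_mul, one_mul, he, sub_self, add_zero, h2]
  have heu : e * (z + (1 - e)) = z := by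
    rw [mul_add, mul_sub, mul_one, he, sub_self, add_zero, h1]
  have hte : t * e = e * t := by
    calc t * e = t * e * ((z + (1 - e)) * t) := by rw [ht1, mul_one]
      _ = t * (e * (z + (1 - e))) * t := by simp only [mul_assoc]
      _ = t * ((z + (1 - e)) * e) * t := by rw [heu, hue]
      _ = (t * (z + (1 - e))) * (e * t) := by simp only [mul_assoc]
      _ = e * t := by rw [ht2, one_mul]
  refine ⟨t * e, ?_, ?_, ?_, ?_⟩
  · rw [hte, ← mul_assoc, he]
  · rw [mul_assoc, he]
  · rw [mul_assoc, h1]
    nth_rewrite 1 [← hue]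
    rw [← mul_assoc, ht2, one_mul]
  · rw [hte, ← mul_assoc, h2]
    nth_rewrite 1 [← heu]
    rw [mul_assoc, ht1, mul_one]

variable [DecidableEq ι]

/-- Every idempotent below `e_I` is equivalent to `e_J` for some `J` in `I`.  The corners of
the `e i` are scalar up to a nil ideal `N`. -/
theorem exists_subset {e : ι → R} (he : OrthogonalIdempotents e) (N : Ideal R)
    (hN : ∀ x ∈ N, IsNilpotent x)
    (hc : ∀ i (x : R), ∃ k : K, e i * x * e i - k • e i ∈ N) (I : Finset ι) :
    ∀ P : R, P * P = P → (∑ i ∈ I, e i) * P = P → P * (∑ i ∈ I, e i) = P →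
      ∃ J ⊆ I, Eqv P (∑ i ∈ J, e i) := by
  induction I using Finset.induction_on with
  | empty =>
    intro P _ h _
    refine ⟨∅, subset_rfl, 0, 0, ?_, ?_, ?_, ?_, ?_, ?_⟩
    all_goals simp only [Finset.sum_empty, zero_mul] at h
    all_goals simp [← h]
  | insert i I hi ih =>
    intro P hP h h'
    rw [Finset.sum_insert hi] at h h'
    have hei : e i * e i = e i := (he.idem i).eq
    have hef := mul_sum_eq he hi
    have hfe := sum_mul_eq he hi
    obtain ⟨k, hk⟩ := hc i P
    set E : R := e i with hE
    set f : R := ∑ j ∈ I, e j with hf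
    have hPP : ∀ z : R, P * (P * z) = P * z := by intro z; rw [← mul_assoc, hP]
    have hEE : ∀ z : R, E * (E * z) = E * z := by intro z; rw [← mul_assoc, hei]
    have hEP : ∀ z : R, (E + f) * (P * z) = P * z := by
      intro z; rw [← mul_assoc, h]
    have hEf : (E + f) * E = E := by rw [add_mul, hei, hfe, add_zero]
    have hEf' : E * (E + f) = E := by rw [mul_add, hei, hef, add_zero]
    by_cases hk0 : k = 0
    · -- the corner of `P` at `i` is nilpotent
      subst hk0
      rw [zero_smul, sub_zero] at hk
      obtain ⟨s, hs1, hs2, hs3, hs4⟩ := corner_inv (K := K) (e := E) (z := E - E * P * E)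
        (k := 1) hei (by rw [mul_sub, hei, ← mul_assoc, ← mul_assoc, hei])
        (by rw [sub_mul, hei, mul_assoc, hei]) one_ne_zero
        (by
          have h1 : E - E * P * E - (1 : K) • E = -(E * P * E) := by
            rw [one_smul]; abel
          rw [h1]
          exact (hN _ hk).neg)
      have hEs : ∀ z : R, E * (s * z) = s * z := by intro z; rw [← mul_assoc, hs1]
      have hPs : E * (P * s) = s - E := by
        rw [sub_mul, hs1] at hs4
        have : E * P * E * s = E * (P * s) := by
          rw [mul_assoc (E * P), hs1, mul_assoc]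
        rw [this] at hs4
        calc E * (P * s) = s - (s - E * (P * s)) := by abel
          _ = s - E := by rw [hs4]
      have hPsz : ∀ z : R, E * (P * (s * z)) = s * z - E * z := by
        intro z
        rw [← mul_assoc P, ← mul_assoc E, hPs, sub_mul]
      set x : R := P - P * E with hx
      set y : R := P - s * P + P * s * P with hy
      have hxy : x * y = P := by
        rw [hx, hy]
        simp only [sub_mul, mul_sub, mul_add, mul_assoc, hPP, hP, hEs, hPsz]
        abel
      set S : R := y * x with hS
      have hSe : S * E = 0 := by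
        rw [hS, hx]
        simp only [mul_sub, sub_mul, mul_assoc, hei, sub_self]
      have heS : E * S = 0 := by
        have : E * y = 0 := by
          rw [hy]
          simp only [mul_sub, mul_add, mul_assoc, hEs, hPsz]
          abel
        rw [hS, ← mul_assoc, this, zero_mul]
      have hSS : S * S = S := by
        calc S * S = y * (x * y) * x := by rw [hS]; simp only [mul_assoc]
          _ = y * P * x := by rw [hxy]
          _ = S := by
            have : P * x = x := by rw [hx]; simp only [mul_sub, hP, hPP]
            rw [mul_assoc, this]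
      have hPS : Eqv P S := Eqv.of_mul hP hSS hxy rfl
      have hEfs : (E + f) * s = s := by
        rw [← hs1, ← mul_assoc, hEf]
      have hfS : f * S = S := by
        have h1 : (E + f) * S = S := by
          have : (E + f) * y = y := by
            rw [hy, mul_add, mul_sub, h, ← mul_assoc (E + f) s P, hEfs, mul_assoc P s P, hEP]
          rw [hS, ← mul_assoc, this]
        rw [add_mul, heS, zero_add] at h1
        exact h1
      have hSf : S * f = S := by
        have h1 : S * (E + f) = S := by
          have : x * (E + f) = x := by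
            rw [hx, sub_mul, h', mul_assoc, hEf']
          rw [hS, mul_assoc, this]
        rw [mul_add, hSe, zero_add] at h1
        exact h1
      obtain ⟨J, hJ, hEq⟩ := ih S hSS hfS hSf
      exact ⟨J, hJ.trans (Finset.subset_insert i I), hPS.trans hEq⟩
    · -- split off a copy of `e i`
      obtain ⟨s, hs1, hs2, hs3, hs4⟩ := corner_inv (K := K) (e := E) (z := E * P * E)
        (k := k) hei (by rw [← mul_assoc, ← mul_assoc, hei])
        (by rw [mul_assoc, hei]) hk0 (hN _ hk)
      have hPs : E * (P * s) = E := by
        calc E * (P * s) = E * P * E * s := by rw [mul_assoc (E * P), hs1, mul_assoc]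
          _ = E := hs4
      have hsP : s * (P * E) = E := by
        calc s * (P * E) = (s * E) * (P * E) := by rw [hs2]
          _ = s * (E * P * E) := by simp only [mul_assoc]
          _ = E := hs3
      set g : R := P * s * P with hg
      have hPg : P * g = g := by
        rw [hg]
        simp only [← mul_assoc, hP]
      have hgP : g * P = g := by
        rw [hg, mul_assoc, hP]
      have hgE : g * E = P * E := by
        rw [hg, mul_assoc, mul_assoc, hsP]
      have hEg : E * g = E * P := by
        rw [hg, ← mul_assoc, hPs]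
      have hgg : g * g = g := by
        calc g * g = g * (P * s * P) := by rw [hg]
          _ = (g * P) * (s * P) := by simp only [mul_assoc]
          _ = g * ((E * s) * P) := by rw [hgP, hs1]
          _ = (g * E) * (s * P) := by simp only [mul_assoc]
          _ = P * (E * s) * P := by rw [hgE]; simp only [mul_assoc]
          _ = g := by rw [hs1]
      have hgEqv : Eqv g E := by
        refine Eqv.of_mul (x := P * s) (y := E * P) hgg hei ?_ ?_
        · rw [hg, show P * s * (E * P) = P * (s * E) * P by simp only [mul_assoc], hs2]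
        · rw [show E * P * (P * s) = E * ((P * P) * s) by simp only [mul_assoc], hP, hPs]
      set S : R := P - g with hS
      have hSS : S * S = S := by
        rw [hS]
        simp only [sub_mul, mul_sub, hP, hPg, hgP, hgg, sub_self, sub_zero]
      have hSe : S * E = 0 := by rw [hS, sub_mul, hgE, sub_self]
      have heS : E * S = 0 := by rw [hS, mul_sub, hEg, sub_self]
      have hgS : g * S = 0 := by rw [hS, mul_sub, hgP, hgg, sub_self]
      have hSg : S * g = 0 := by rw [hS, sub_mul, hPg, hgg, sub_self]
      have hfS : f * S = S := by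
        have h1 : (E + f) * S = S := by
          have h2 : (E + f) * g = g := by rw [← hPg, ← mul_assoc, h]
          rw [hS, mul_sub, h, h2]
        rw [add_mul, heS, zero_add] at h1
        exact h1
      have hSf : S * f = S := by
        have h1 : S * (E + f) = S := by
          have h2 : g * (E + f) = g := by rw [← hgP, mul_assoc, h']
          rw [hS, sub_mul, h', h2]
        rw [mul_add, hSe, zero_add] at h1
        exact h1
      obtain ⟨J, hJ, hEq⟩ := ih S hSS hfS hSf
      have hiJ : i ∉ J := fun hi' => hi (hJ hi')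
      refine ⟨insert i J, Finset.insert_subset_insert i hJ, ?_⟩
      rw [Finset.sum_insert hiJ]
      have h3 : P = g + S := by rw [hS]; abel
      rw [h3]
      exact hgEqv.add hEq hgS hSg (mul_sum_eq he hiJ) (sum_mul_eq he hiJ)

/-- An additive antimultiplicative map sends each idempotent of `R` to an equivalent one as soon
as it does so for the members of a complete family with scalar corners (up to a nil ideal). -/
theorem eqv_of_anti [Fintype ι] {e : ι → R} (he : CompleteOrthogonalIdempotents e)
    (N : Ideal R) (hN : ∀ x ∈ N, IsNilpotent x)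
    (hc : ∀ i (x : R), ∃ k : K, e i * x * e i - k • e i ∈ N) (τ : R →+ R)
    (hτ : ∀ x y, τ (x * y) = τ y * τ x) (hτe : ∀ i, Eqv (τ (e i)) (e i)) {P : R}
    (hP : P * P = P) : Eqv (τ P) P := by
  have hd : ∀ {P Q : R}, Eqv P Q → Eqv (τ P) (τ Q) := by
    intro P Q h
    obtain ⟨x, y, h⟩ := h
    refine Eqv.of_mul (x := τ y) (y := τ x) ?_ ?_ ?_ ?_
    · rw [← hτ, h.idem_left]
    · rw [← hτ, h.idem_right]
    · rw [← hτ, h.xy]
    · rw [← hτ, h.yx]
  have hsum : ∀ J : Finset ι, Eqv (τ (∑ i ∈ J, e i)) (∑ i ∈ J, e i) := by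
    intro J
    induction J using Finset.induction_on with
    | empty =>
      simp only [Finset.sum_empty, map_zero]
      exact Eqv.refl (by simp)
    | insert i J hi ih =>
      rw [Finset.sum_insert hi, map_add]
      have h1 := mul_sum_eq he.toOrthogonalIdempotents hi
      have h2 := sum_mul_eq he.toOrthogonalIdempotents hi
      refine (hτe i).add ih ?_ ?_ h1 h2
      · rw [← hτ, h2, map_zero]
      · rw [← hτ, h1, map_zero]
  obtain ⟨J, -, hJ⟩ := exists_subset he.toOrthogonalIdempotents N hN hc Finset.univ P hP
    (by rw [he.complete, one_mul]) (by rw [he.complete, mul_one])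
  exact ((hd hJ).trans (hsum J)).trans hJ.symm

end Pool.Agent.CmSd
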