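import Mathlib
import Pool.Agent.CmSd.Dec

/-!
# Descent of equivalences of idempotents along a field extension
-/

namespace Pool.Agent.CmSd

open Polynomial TensorProduct

section Pencil

variable {K R : Type*} [Field K] [Ring R] [Algebra K R]

theorem isUnit_smul {k : K} (hk : k ≠ 0) {z : R} (hz : IsUnit z) : IsUnit (k • z) := by
  rw [Algebra.smul_def]
  exact ((IsUnit.mk0 k hk).map (algebraMap K R)).mul hz

theorem isUnit_sub_of_eval {w : R} {q : K[X]} (h : aeval w q = 0) {a : K}
    (ha : q.eval a ≠ 0) : IsUnit (w - algebraMap K R a) := by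
  obtain ⟨s, hs⟩ := X_sub_C_dvd_sub_C_eval (a := a) (p := q)
  have h1 : aeval w (q - C (q.eval a)) = aeval w ((X - C a) * s) := by rw [hs]
  have h2 : aeval w (q - C (q.eval a)) = aeval w (s * (X - C a)) := by rw [hs, mul_comm]
  simp only [map_sub, map_mul, aeval_C, aeval_X, h, zero_sub] at h1 h2
  have h3 : (q.eval a)⁻¹ • (algebraMap K R) (eval a q) = 1 := by
    rw [Algebra.smul_def, ← map_mul, inv_mul_cancel₀ ha, map_one]
  refine isUnit_iff_exists.mpr ⟨-((q.eval a)⁻¹ • aeval w s), ?_, ?_⟩
  · rw [mul_neg, mul_smul_comm, ← h1, smul_neg, neg_neg, h3]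
  · rw [neg_mul, smul_mul_assoc, ← h2, smul_neg, neg_neg, h3]

/-- For an algebraic element `w`, all but finitely many `1 + k w` are units. -/
theorem finite_one_add {w : R} (hw : IsAlgebraic K w) :
    {k : K | ¬ IsUnit (1 + k • w)}.Finite := by
  classical
  obtain ⟨q, hq, h0⟩ := hw
  refine ((q.roots.toFinset.finite_toSet).image (fun l : K => -l⁻¹)).subset ?_
  intro k hk
  simp only [Set.mem_ofPred_eq] at hk
  have hk0 : k ≠ 0 := by
    rintro rfl
    apply hk
    rw [zero_smul, add_zero]
    exact isUnit_one
  refine ⟨-k⁻¹, ?_, ?_⟩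
  · simp only [Finset.mem_coe, Multiset.mem_toFinset]
    rw [Polynomial.mem_roots hq, Polynomial.IsRoot.def]
    by_contra hne
    apply hk
    have h1 := isUnit_smul hk0 (isUnit_sub_of_eval h0 hne)
    have h2 : k • (w - (algebraMap K R) (-k⁻¹)) = 1 + k • w := by
      rw [smul_sub, map_neg, smul_neg, sub_neg_eq_add, Algebra.smul_def k (algebraMap K R k⁻¹),
        ← map_mul, mul_inv_cancel₀ hk0, map_one, add_comm]
    rwa [h2] at h1
  · simp only [inv_neg, inv_inv, neg_neg]

/-- A pencil which contains a unit consists of units up to finitely many elements. -/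
theorem finite_pencil (hR : ∀ w : R, IsAlgebraic K w) (u v : R) (l : K)
    (h : IsUnit (u + l • v)) : {k : K | ¬ IsUnit (u + k • v)}.Finite := by
  obtain ⟨U, hU⟩ := h
  have h1 := finite_one_add (hR ((↑U⁻¹ : R) * v))
  refine (h1.image (fun k => k + l)).subset ?_
  intro k hk
  simp only [Set.mem_ofPred_eq] at hk
  refine ⟨k - l, ?_, by simp⟩
  simp only [Set.mem_ofPred_eq]
  intro h2
  apply hk
  have h3 : u + k • v = ↑U * (1 + (k - l) • ((↑U⁻¹ : R) * v)) := by
    rw [mul_add, mul_one, mul_smul_comm, ← mul_assoc, Units.mul_inv, one_mul, hU, sub_smul]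
    abel
  rw [h3]
  exact U.isUnit.mul h2

end Pencil

section Descent

variable {F K B : Type*} [Field F] [Field K] [Algebra F K] [Ring B] [Algebra F B]

/-- The embedding of `B` into `K ⊗ B`. -/
abbrev inc (F K : Type*) {B : Type*} [Field F] [Field K] [Algebra F K] [Ring B] [Algebra F B]
    (b : B) : K ⊗[F] B := (1 : K) ⊗ₜ[F] b

theorem inc_mul (a b : B) : inc F K (a * b) = inc F K a * inc F K b := by
  simp [inc]

theorem inc_add (a b : B) : inc F K (a + b) = inc F K a + inc F K b := by
  simp [inc, TensorProduct.tmul_add]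

theorem inc_sub (a b : B) : inc F K (a - b) = inc F K a - inc F K b := by
  simp [inc, TensorProduct.tmul_sub]

theorem inc_one : inc F K (1 : B) = 1 := rfl

/-- A retraction of `B → K ⊗ B`. -/
theorem exists_retraction : ∃ π : K ⊗[F] B →ₗ[F] B,
    (∀ u z, π (inc F K u * z) = u * π z) ∧ (∀ u z, π (z * inc F K u) = π z * u) ∧
    π 1 = 1 := by
  obtain ⟨ρ, hρ⟩ := LinearMap.exists_leftInverse_of_injective (Algebra.linearMap F K)
    (LinearMap.ker_eq_bot.mpr (FaithfulSMul.algebraMap_injective F K))
  have hρ1 : ρ 1 = 1 := by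
    have := LinearMap.congr_fun hρ 1
    simpa using this
  refine ⟨(TensorProduct.lid F B).toLinearMap ∘ₗ (ρ.rTensor B), ?_, ?_, ?_⟩
  · intro u z
    induction z using TensorProduct.induction_on with
    | zero => simp
    | tmul k b => simp [inc]
    | add x y hx hy => rw [mul_add, map_add, map_add, mul_add, hx, hy]
  · intro u z
    induction z using TensorProduct.induction_on with
    | zero => simp
    | tmul k b => simp [inc]
    | add x y hx hy => rw [add_mul, map_add, map_add, add_mul, hx, hy]
  · rw [Algebra.TensorProduct.one_def]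
    simp [hρ1]

theorem isUnit_of_inc {u : B} (h : IsUnit (inc F K u)) : IsUnit u := by
  obtain ⟨π, h1, h2, h3⟩ := exists_retraction (F := F) (K := K) (B := B)
  obtain ⟨z, hz, hz'⟩ := isUnit_iff_exists.mp h
  refine isUnit_iff_exists.mpr ⟨π z, ?_, ?_⟩
  · rw [← h1, hz, h3]
  · rw [← h2, hz', h3]

/-- A property of elements of an algebra which holds for all but finitely many members of every
pencil of which it holds for one member. -/
def Pen (K : Type*) {R : Type*} [Field K] [Ring R] [Algebra K R] (G : R → Prop) : Prop :=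
  ∀ (a v : R) (l : K), G (a + l • v) → {k : K | ¬ G (a + k • v)}.Finite

theorem Pen.exists_inc [Infinite F] {G : K ⊗[F] B → Prop} (hG : Pen K G) {z : K ⊗[F] B}
    (hz : G z) : ∃ b : B, G (inc F K b) := by
  have key : ∀ (z : K ⊗[F] B) (G : K ⊗[F] B → Prop), Pen K G → ∀ r : B,
      G (z + inc F K r) → ∃ b : B, G (inc F K b) := by
    intro z
    induction z using TensorProduct.induction_on with
    | zero =>
      intro G _ r h
      exact ⟨r, by simpa using h⟩
    | tmul k b =>
      intro G hG r h
      have h1 : k ⊗ₜ[F] b = k • (inc F K b) := by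
        simp [inc, TensorProduct.smul_tmul']
      rw [h1, add_comm] at h
      have h2 := hG _ _ _ h
      have h3 : ((algebraMap F K) ⁻¹' {k : K | ¬ G (inc F K r + k • inc F K b)}).Finite :=
        h2.preimage (FaithfulSMul.algebraMap_injective F K).injOn
      obtain ⟨f, hf⟩ := h3.exists_notMem
      simp only [Set.mem_preimage, Set.mem_ofPred_eq, not_not] at hf
      refine ⟨r + f • b, ?_⟩
      have h4 : inc F K (r + f • b) = inc F K r + (algebraMap F K f) • inc F K b := by
        rw [inc_add]
        congr 1
        simp [inc, TensorProduct.smul_tmul']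
      rw [h4]
      exact hf
    | add x y hx hy =>
      intro G hG r h
      have hG' : Pen K (fun a => G (a + y)) := by
        intro a v l h
        have h' : G ((a + y) + l • v) := by
          have : a + y + l • v = a + l • v + y := by abel
          rw [this]
          exact h
        refine (hG _ _ _ h').subset ?_
        intro k hk
        simp only [Set.mem_ofPred_eq] at hk ⊢
        have : a + y + k • v = a + k • v + y := by abel
        rwa [this]
      obtain ⟨b, hb⟩ := hx (fun a => G (a + y)) hG' r (by
        have : x + inc F K r + y = x + y + inc F K r := by abel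
        rw [this]
        exact h)
      exact hy G hG b (by rw [add_comm]; exact hb)
  refine key z G hG 0 ?_
  have : inc F K (0 : B) = 0 := by simp [inc]
  rw [this, add_zero]
  exact hz

/-- Two elements which are generic enough give an equivalence. -/
theorem eqv_of_units {p q a b : B} (hp : p * p = p) (hq : q * q = q)
    (hu : IsUnit (p * a * q * b * p + (1 - p))) (hv : IsUnit (q * b * p * a * q + (1 - q))) :
    Eqv p q := by
  obtain ⟨u, hu1, hu2⟩ := isUnit_iff_exists.mp hu
  set α : B := p * a * q with hα
  set β : B := q * b * p with hβ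
  have hpα : p * α = α := by rw [hα]; simp only [← mul_assoc, hp]
  have hαq : α * q = α := by rw [hα, mul_assoc, hq]
  have hqβ : q * β = β := by rw [hβ]; simp only [← mul_assoc, hq]
  have hβp : β * p = β := by rw [hβ, mul_assoc, hp]
  have e1 : p * a * q * b * p + (1 - p) = α * β + (1 - p) := by
    rw [hα, hβ]
    congr 1
    rw [show p * a * q * (q * b * p) = p * a * (q * q) * b * p by simp only [mul_assoc], hq]
  have e2 : q * b * p * a * q + (1 - q) = β * α + (1 - q) := by
    rw [hα, hβ]
    congr 1
    rw [show q * b * p * (p * a * q) = q * b * (p * p) * a * q by simp only [mul_assoc], hp]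
  rw [e1] at hu1 hu2
  rw [e2] at hv
  have hpU : p * (α * β + (1 - p)) = α * β := by
    rw [mul_add, mul_sub, mul_one, hp, sub_self, add_zero, ← mul_assoc, hpα]
  have hUp : (α * β + (1 - p)) * p = α * β := by
    rw [add_mul, sub_mul, one_mul, hp, sub_self, add_zero, mul_assoc, hβp]
  have h1 : α * β * (u * p) = p := by
    rw [← hpU, mul_assoc, ← mul_assoc _ u p, hu1, one_mul, hp]
  set g : B := β * (u * p) * α with hg
  have hqV : q * (β * α + (1 - q)) = β * α := by
    rw [mul_add, mul_sub, mul_one, hq, sub_self, add_zero, ← mul_assoc, hqβ]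
  have hVq : (β * α + (1 - q)) * q = β * α := by
    rw [add_mul, sub_mul, one_mul, hq, sub_self, add_zero, mul_assoc, hαq]
  have hqg : q * g = g := by rw [hg]; simp only [← mul_assoc, hqβ]
  have hgg : (β * α + (1 - q)) * g = (β * α + (1 - q)) * q := by
    have h2 : β * α * g = β * α := by
      calc β * α * g = β * (α * β * (u * p)) * α := by rw [hg]; simp only [mul_assoc]
        _ = β * p * α := by rw [h1]
        _ = β * α := by rw [hβp]
    rw [hVq, add_mul, h2, sub_mul, one_mul, hqg, sub_self, add_zero]
  have hgq : g = q := hv.mul_left_cancel hgg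
  refine Eqv.of_mul (x := α) (y := β * (u * p)) hp hq ?_ ?_
  · rw [← mul_assoc, h1]
  · rw [← hg, hgq]

/-- Descent: idempotents of `B` which become equivalent over `K` are equivalent. -/
theorem descent [Infinite F] (hR : ∀ w : K ⊗[F] B, IsAlgebraic K w) {p q : B}
    (hp : p * p = p) (hq : q * q = q) (h : Eqv (inc F K p) (inc F K q)) : Eqv p q := by
  obtain ⟨x, y, hl⟩ := h
  set P := inc F K p with hP
  set Q := inc F K q with hQ
  let G : K ⊗[F] B → K ⊗[F] B → Prop := fun a b =>
    IsUnit (P * a * Q * b * P + (1 - P)) ∧ IsUnit (Q * b * P * a * Q + (1 - Q))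
  have h0 : G x y := by
    constructor
    · rw [hl.px, hl.xq, hl.xy, hl.idem_left]
      simp
    · rw [hl.qy, hl.yp, hl.yx, hl.idem_right]
      simp
  have hG1 : ∀ b, Pen K (fun a => G a b) := by
    intro b a v l h
    have i1 : ∀ k : K, P * (a + k • v) * Q * b * P + (1 - P) =
        (P * a * Q * b * P + (1 - P)) + k • (P * v * Q * b * P) := by
      intro k
      simp only [mul_add, add_mul, mul_smul_comm, smul_mul_assoc]
      abel
    have i2 : ∀ k : K, Q * b * P * (a + k • v) * Q + (1 - Q) =
        (Q * b * P * a * Q + (1 - Q)) + k • (Q * b * P * v * Q) := by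
      intro k
      simp only [mul_add, add_mul, mul_smul_comm, smul_mul_assoc]
      abel
    have f1 := finite_pencil hR _ _ l (by rw [← i1]; exact h.1)
    have f2 := finite_pencil hR _ _ l (by rw [← i2]; exact h.2)
    refine (f1.union f2).subset ?_
    intro k hk
    simp only [Set.mem_ofPred_eq, Set.mem_union, G, i1, i2] at hk ⊢
    tauto
  have hG2 : ∀ a, Pen K (fun b => G a b) := by
    intro a b v l h
    have i1 : ∀ k : K, P * a * Q * (b + k • v) * P + (1 - P) =
        (P * a * Q * b * P + (1 - P)) + k • (P * a * Q * v * P) := by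
      intro k
      simp only [mul_add, add_mul, mul_smul_comm, smul_mul_assoc]
      abel
    have i2 : ∀ k : K, Q * (b + k • v) * P * a * Q + (1 - Q) =
        (Q * b * P * a * Q + (1 - Q)) + k • (Q * v * P * a * Q) := by
      intro k
      simp only [mul_add, add_mul, mul_smul_comm, smul_mul_assoc]
      abel
    have f1 := finite_pencil hR _ _ l (by rw [← i1]; exact h.1)
    have f2 := finite_pencil hR _ _ l (by rw [← i2]; exact h.2)
    refine (f1.union f2).subset ?_
    intro k hk
    simp only [Set.mem_ofPred_eq, Set.mem_union, G, i1, i2] at hk ⊢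
    tauto
  obtain ⟨a, ha⟩ := (hG1 y).exists_inc h0
  obtain ⟨b, hb⟩ := (hG2 (inc F K a)).exists_inc ha
  refine eqv_of_units (a := a) (b := b) hp hq ?_ ?_
  · apply isUnit_of_inc (F := F) (K := K)
    have := hb.1
    rwa [← inc_one, hP, hQ, ← inc_mul, ← inc_mul, ← inc_mul, ← inc_mul, ← inc_sub,
      ← inc_add] at this
  · apply isUnit_of_inc (F := F) (K := K)
    have := hb.2
    rwa [← inc_one, hP, hQ, ← inc_mul, ← inc_mul, ← inc_mul, ← inc_mul, ← inc_sub,
      ← inc_add] at this

end Descent

end Pool.Agent.CmSd
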