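import Mathlib
import Pool.Agent.CmSd.Alg
import Pool.Agent.CmSd.Des

/-!
# Algebras with an anti-endomorphism which is a conjugation on a splitting system
-/

namespace Pool.Agent.CmSd

open Polynomial TensorProduct CategoryTheory Opposite

section

variable {K R : Type*} [Field K] [Ring R] [Algebra K R] {ι : Type*} [Fintype ι]

/-- In a ring with a complete system of orthogonal idempotents whose corners are scalar up to a
nil ideal, every element is algebraic. -/
theorem algebraic_of_split {e : ι → R} (he : CompleteOrthogonalIdempotents e)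
    (N : Ideal R) [N.IsTwoSided] (hN : ∀ x ∈ N, IsNilpotent x)
    (hc : ∀ i (x : R), ∃ k : K, e i * x * e i - k • e i ∈ N) (w : R) : IsAlgebraic K w := by
  classical
  let π : R →ₐ[K] R ⧸ N := Ideal.Quotient.mkₐ K N
  have hπ : Function.Surjective π := Ideal.Quotient.mkₐ_surjective K N
  have he' : OrthogonalIdempotents (fun i => π (e i)) :=
    he.toOrthogonalIdempotents.map (π : R →+* R ⧸ N)
  have hker : ∀ x, π x = 0 → x ∈ N := by
    intro x hx
    exact Ideal.Quotient.eq_zero_iff_mem.mp hx
  have hker' : ∀ x ∈ N, π x = 0 := by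
    intro x hx
    exact Ideal.Quotient.eq_zero_iff_mem.mpr hx
  have hc' : ∀ i (x : R ⧸ N), ∃ k : K, π (e i) * x * π (e i) = k • π (e i) := by
    intro i x
    obtain ⟨x, rfl⟩ := hπ x
    obtain ⟨k, hk⟩ := hc i x
    refine ⟨k, ?_⟩
    have h1 := hker' _ hk
    rw [map_sub, map_mul, map_mul, map_smul, sub_eq_zero] at h1
    exact h1
  have hsum : ∑ i ∈ (Finset.univ : Finset ι), π (e i) = 1 := by
    rw [← map_sum, he.complete, map_one]
  obtain ⟨q, hq, h0⟩ := algebraic_corner he' hc' Finset.univ (π w)
    (by rw [hsum, one_mul]) (by rw [hsum, mul_one])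
  have h1 : π (aeval w q) = 0 := by
    rw [← Polynomial.aeval_algHom_apply, h0]
  obtain ⟨m, hm⟩ := hN _ (hker _ h1)
  exact ⟨q ^ m, pow_ne_zero m hq, by rw [map_pow, hm]⟩

/-- Equivalence of idempotents lifts modulo nil ideals. -/
theorem eqv_of_nil (N : Ideal R) [N.IsTwoSided] (hN : ∀ x ∈ N, IsNilpotent x) {P Q x y : R}
    (hP : P * P = P) (hQ : Q * Q = Q) (h1 : x * y - P ∈ N) (h2 : y * x - Q ∈ N) : Eqv P Q := by
  let π : R →+* R ⧸ N := Ideal.Quotient.mk N
  have hker : ∀ x, π x = 0 → x ∈ N := fun x hx => Ideal.Quotient.eq_zero_iff_mem.mp hx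
  have hker' : ∀ x ∈ N, π x = 0 := fun x hx => Ideal.Quotient.eq_zero_iff_mem.mpr hx
  have hu : ∀ z : R, π z = 1 → IsUnit z := by
    intro z hz
    have h3 : z - 1 ∈ N := hker _ (by rw [map_sub, hz, map_one, sub_self])
    have h4 := (hN _ h3).isUnit_add_one
    simpa using h4
  have e1 : π x * π y = π P := by
    have := hker' _ h1
    rwa [map_sub, map_mul, sub_eq_zero] at this
  have e2 : π y * π x = π Q := by
    have := hker' _ h2
    rwa [map_sub, map_mul, sub_eq_zero] at this
  have hP' : π P * π P = π P := by rw [← map_mul, hP]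
  have hQ' : π Q * π Q = π Q := by rw [← map_mul, hQ]
  have f1 : π x * π Q = π P * π x := by rw [← e2, ← e1, mul_assoc]
  have f2 : π y * π P = π Q * π y := by rw [← e2, ← e1, mul_assoc]
  refine eqv_of_units (a := x) (b := y) hP hQ (hu _ ?_) (hu _ ?_)
  · simp only [map_add, map_sub, map_mul, map_one]
    have : π P * π x * π Q * π y * π P = π P := by
      rw [mul_assoc (π P) (π x) (π Q), f1, ← mul_assoc, hP', mul_assoc (π P) (π x) (π y), e1,
        hP', hP']
    rw [this]
    abel
  · simp only [map_add, map_sub, map_mul, map_one]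
    have : π Q * π y * π P * π x * π Q = π Q := by
      rw [mul_assoc (π Q) (π y) (π P), f2, ← mul_assoc, hQ', mul_assoc (π Q) (π y) (π x), e2,
        hQ', hQ']
    rw [this]
    abel

end

section

variable {F K B : Type*} [Field F] [Infinite F] [Field K] [Algebra F K] [Ring B] [Algebra F B]
variable {ι : Type*} [Fintype ι]

/-- The algebraic form of the theorem. -/
theorem eqv_dag (c : K ≃ₐ[F] K) (dag : B →ₗ[F] B) (hdag : ∀ x y, dag (x * y) = dag y * dag x)
    (N : Ideal (K ⊗[F] B)) [N.IsTwoSided] (hN : ∀ x ∈ N, IsNilpotent x)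
    (e : ι → K ⊗[F] B) (he : CompleteOrthogonalIdempotents e)
    (hc : ∀ i (x : K ⊗[F] B), ∃ k : K, e i * x * e i - k • e i ∈ N)
    (hdual : ∀ i, ∃ x y : K ⊗[F] B, x * y - dag.lTensor K (e i) ∈ N ∧
      y * x - c.toLinearMap.rTensor B (e i) ∈ N)
    {p : B} (hp : p * p = p) : Eqv (dag p) p := by
  classical
  have hR := algebraic_of_split he N hN hc
  -- the semilinear anti-endomorphism
  let σ : K ⊗[F] B →ₐ[F] K ⊗[F] B := Algebra.TensorProduct.map (c.symm : K →ₐ[F] K)
    (AlgHom.id F B)
  let δ : K ⊗[F] B →ₗ[F] K ⊗[F] B := dag.lTensor K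
  have hδ : ∀ x y, δ (x * y) = δ y * δ x := by
    intro x y
    induction x using TensorProduct.induction_on with
    | zero => simp
    | tmul k b =>
      induction y using TensorProduct.induction_on with
      | zero => simp
      | tmul k' b' => simp [δ, hdag, mul_comm]
      | add u v hu hv => rw [mul_add, map_add, map_add, add_mul, hu, hv]
    | add u v hu hv => rw [add_mul, map_add, map_add, mul_add, hu, hv]
  have hσc : ∀ x, σ (c.toLinearMap.rTensor B x) = x := by
    intro x
    induction x using TensorProduct.induction_on with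
    | zero => simp
    | tmul k b => simp [σ]
    | add u v hu hv => rw [map_add, map_add, hu, hv]
  let τ : K ⊗[F] B →+ K ⊗[F] B := (σ.toLinearMap ∘ₗ δ).toAddMonoidHom
  have hτapp : ∀ x, τ x = σ (δ x) := fun x => rfl
  have hτ : ∀ x y, τ (x * y) = τ y * τ x := by
    intro x y
    rw [hτapp, hτapp, hτapp, hδ, map_mul]
  have hcmul : ∀ x y : K ⊗[F] B, c.toLinearMap.rTensor B (x * y) =
      c.toLinearMap.rTensor B x * c.toLinearMap.rTensor B y := by
    intro x y
    induction x using TensorProduct.induction_on with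
    | zero => simp
    | tmul k b =>
      induction y using TensorProduct.induction_on with
      | zero => simp
      | tmul k' b' => simp
      | add u v hu hv => rw [mul_add, map_add, map_add, mul_add, hu, hv]
    | add u v hu hv => rw [add_mul, map_add, map_add, add_mul, hu, hv]
  have hτe : ∀ i, Eqv (τ (e i)) (e i) := by
    intro i
    obtain ⟨x, y, h1, h2⟩ := hdual i
    have hi : e i * e i = e i := (he.idem i).eq
    have h3 : Eqv (δ (e i)) (c.toLinearMap.rTensor B (e i)) :=
      eqv_of_nil N hN (by rw [← hδ, hi]) (by rw [← hcmul, hi]) h1 h2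
    obtain ⟨x', y', hl⟩ := h3
    refine Eqv.of_mul (x := σ x') (y := σ y') ?_ hi ?_ ?_
    · rw [hτapp, ← map_mul, ← hδ, hi]
    · rw [hτapp, ← map_mul, hl.xy]
    · rw [← map_mul, hl.yx, hσc]
  have hτinc : ∀ b : B, τ (inc F K b) = inc F K (dag b) := by
    intro b
    simp [hτapp, σ, δ, inc]
  have hP : inc F K p * inc F K p = inc F K p := by rw [← inc_mul, hp]
  have h4 := eqv_of_anti he N hN hc τ hτ hτe hP
  rw [hτinc] at h4
  exact descent hR (by rw [← hdag, hp]) hp h4

end

end Pool.Agent.CmSd
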